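import Pool.Agent.H9.Circ

set_option autoImplicit false

namespace Pool.Agent.Results.MP_b6cdd3_co.Yes

/-- The cyclic order induced on triples by positions read around a circle. -/
def Cyc (a b c : ℕ) : Prop := (a < b ∧ b < c) ∨ (b < c ∧ c < a) ∨ (c < a ∧ a < b)

/-- `G` has a linear ordering in which no pattern of `F` (on `Fin n`, usual order) is induced. -/
def LinFree {V : Type} (F : Set (Σ n, SimpleGraph (Fin n))) (G : SimpleGraph V) : Prop :=
  ∃ c : V → ℕ, Function.Injective c ∧ ∀ p ∈ F,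
    ¬ ∃ φ : p.2 ↪g G, ∀ x y : Fin p.1, x < y ↔ c (φ x) < c (φ y)

/-- `G` has a circular ordering in which no pattern of `F` (standard cyclic order) is induced. -/
def CircFree {V : Type} (F : Set (Σ n, SimpleGraph (Fin n))) (G : SimpleGraph V) : Prop :=
  ∃ c : V → ℕ, Function.Injective c ∧ ∀ p ∈ F,
    ¬ ∃ φ : p.2 ↪g G, ∀ x y z : Fin p.1, Cyc x y z ↔ Cyc (c (φ x)) (c (φ y)) (c (φ z))

theorem result : ∃ P : ∀ V : Type, SimpleGraph V → Prop,
    (∀ (V W : Type) (G : SimpleGraph V) (H : SimpleGraph W), Nonempty (H ↪g G) → P V G → P W H) ∧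
    (∃ F : Set (Σ n, SimpleGraph (Fin n)), F.Finite ∧
      ∀ (V : Type) [Fintype V] (G : SimpleGraph V), LinFree F G ↔ P V G) ∧
    ¬ ∃ F : Set (Σ n, SimpleGraph (Fin n)), F.Finite ∧
      ∀ (V : Type) [Fintype V] (G : SimpleGraph V), CircFree F G ↔ P V G := by
  classical
  refine ⟨fun _ G => G.Colorable 2, fun V W G H ⟨φ⟩ h => h.of_hom φ.toHom,
    ⟨Sigma.mk 3 '' {H | H.Adj 0 1 ∧ H.Adj 1 2}, (Set.toFinite _).image _, fun V _ G => ⟨?_, ?_⟩⟩, ?_⟩
  · rintro ⟨c, hc, h⟩
    have key : ∀ u v, G.Adj u v → c u < c v → ¬ ∃ w, G.Adj w u ∧ c w < c u := by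
      rintro u v e p ⟨w, e', p'⟩
      have hm : StrictMono (c ∘ ![w, u, v]) := by
        refine Fin.strictMono_iff_lt_succ.2 fun i => ?_
        fin_cases i <;> simpa
      exact h ⟨3, G.comap ![w, u, v]⟩ ⟨_, ⟨e', e⟩, rfl⟩
        ⟨SimpleGraph.Embedding.comap ⟨_, Function.Injective.of_comp hm.injective⟩ G,
          fun x y => hm.lt_iff_lt.symm⟩
    refine ⟨SimpleGraph.Coloring.mk (fun v => if ∃ w, G.Adj w v ∧ c w < c v then 1 else 0) ?_⟩
    intro u v e
    rcases lt_or_gt_of_ne (hc.ne e.ne) with p | p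
    · rw [if_neg (key u v e p), if_pos ⟨u, e, p⟩]; decide
    · rw [if_neg (key v u e.symm p), if_pos ⟨v, e.symm, p⟩]; decide
  · rintro ⟨d⟩
    refine ⟨fun v => (d v).val * Fintype.card V + (Fintype.equivFin V v).val, fun u v e => ?_, ?_⟩
    · have h1 := (Fintype.equivFin V u).2
      have h2 := (Fintype.equivFin V v).2
      refine (Fintype.equivFin V).injective (Fin.ext ?_)
      simp only at e
      generalize d u = a at e
      generalize d v = b at e
      fin_cases a <;> fin_cases b <;> simp at e <;> omega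
    · rintro p ⟨H, ⟨e1, e2⟩, rfl⟩ ⟨φ, h⟩
      have a1 := d.valid (φ.map_adj_iff.2 e1)
      have a2 := d.valid (φ.map_adj_iff.2 e2)
      have b1 := (h (0 : Fin 3) (1 : Fin 3)).1 (show (0 : Fin 3) < 1 by decide)
      have b2 := (h (1 : Fin 3) (2 : Fin 3)).1 (show (1 : Fin 3) < 2 by decide)
      have h0 := (Fintype.equivFin V (φ (0 : Fin 3))).2
      have h1 := (Fintype.equivFin V (φ (1 : Fin 3))).2
      simp only at b1 b2
      generalize d (φ (0 : Fin 3)) = a at *
      generalize d (φ (1 : Fin 3)) = b at *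
      generalize d (φ (2 : Fin 3)) = c at *
      fin_cases a <;> fin_cases b <;> fin_cases c <;> simp at a1 a2 b1 b2 <;> omega
  · rintro ⟨F, hF, h⟩
    obtain ⟨N, G, h1, h2⟩ := Pool.Agent.H9.Circ.main 2 le_rfl F hF fun V _ G g => (h V G).2 g
    exact h1 ((h _ G).1 ⟨Fin.val, Fin.val_injective, h2⟩)

end Pool.Agent.Results.MP_b6cdd3_co.Yes
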